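import Pool.Agent.Helper5.UN.Goals
import Pool.Agent.Helper18.RO.HVAL

/-!
# Project UN (MP_a41896_nt), packet ZEL

The excluded set is contained in a hypersurface.
-/

namespace Pool.Agent.Helper87.UN

open WeierstrassCurve Height Height.AdmissibleAbsValues MvPolynomial
open Pool.Agent.Helper29.BL Pool.Agent.Helper5.RO Pool.Agent.Helper5.UN
open Pool.Agent.Helper18.RO (map_sy map_asm xRep_of_ne_zero)

noncomputable section

section maps

variable {R S T : Type} [CommRing R] [CommRing S] [CommRing T]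

theorem map_pr (g : S →+* T) {n : ℕ} (a : EE n → Bool) (ζ : EE n → S) (e : EE n) (j : Fin 2) :
    g (pr a ζ e j) = pr a (fun e => g (ζ e)) e j := by
  unfold pr
  split_ifs <;> fin_cases j <;> simp

theorem map_dad (φ : R →+* S) (g : S →+* T) (W : WeierstrassCurve R) (P Q : Fin 2 → S) (b : Bool)
    (r : Fin 2 → S) (j : Fin 2) :
    g (dad φ W P Q b r j) =
      dad (g.comp φ) W (fun i => g (P i)) (fun i => g (Q i)) b (fun i => g (r i)) j := by
  have h : ∀ k, g (asm φ W (sy P Q) k) =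
      asm (g.comp φ) W (sy (fun i => g (P i)) (fun i => g (Q i))) k := by
    intro k
    rw [map_asm]
    have e : (fun i => g (sy P Q i)) = sy (fun i => g (P i)) (fun i => g (Q i)) :=
      funext fun l => map_sy g P Q l
    rw [e]
  unfold dad
  split_ifs <;> fin_cases j <;> simp [h]

theorem map_rp (φ : R →+* S) (g : S →+* T) (W : WeierstrassCurve R) {n : ℕ} (a : EE n → Bool)
    (ζ : EE n → S) : ∀ (k : ℕ) (m : Fin n → ℤ) (j : Fin 2),
    g (rp φ W a ζ k m j) = rp (g.comp φ) W a (fun e => g (ζ e)) k m j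
  | 0, m, j => map_pr g a ζ (sg m) j
  | (k + 1), m, j => by
    have e1 : ∀ m : Fin n → ℤ, (fun j => g (rp φ W a ζ k m j)) =
        rp (g.comp φ) W a (fun e => g (ζ e)) k m := fun m => funext fun j => map_rp φ g W a ζ k m j
    have e2 : ∀ e, (fun j => g (pr a ζ e j)) = pr a (fun e => g (ζ e)) e :=
      fun e => funext fun j => map_pr g a ζ e j
    rw [rp, rp, map_dad, e1, e1, e2]

end maps

/-- Generic zeros of a prime ideal. -/
theorem exists_generic (K V : Type) [Field K] (P : Ideal (MvPolynomial V K)) [hP : P.IsPrime] :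
    ∃ (Ω : Type) (_ : Field Ω) (_ : Algebra K Ω) (_ : IsAlgClosed Ω) (ζ : V → Ω),
      ∀ g : MvPolynomial V K, aeval ζ g = 0 ↔ g ∈ P := by
  let Q := MvPolynomial V K ⧸ P
  let L := FractionRing Q
  let Ω := AlgebraicClosure L
  let ψ : MvPolynomial V K →+* Ω :=
    ((algebraMap L Ω).comp (algebraMap Q L)).comp (Ideal.Quotient.mk P)
  let alg : Algebra K Ω := (ψ.comp C).toAlgebra
  refine ⟨Ω, inferInstance, alg, inferInstance, fun v => ψ (X v), fun g => ?_⟩
  have h : ((aeval (fun v => ψ (X v)) : MvPolynomial V K →ₐ[K] Ω) : MvPolynomial V K →+* Ω) = ψ := by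
    refine MvPolynomial.ringHom_ext (fun r => ?_) (fun i => ?_)
    · change aeval (fun v => ψ (X v)) (C r) = ψ (C r)
      rw [aeval_C]
      rfl
    · change aeval (fun v => ψ (X v)) (X i) = ψ (X i)
      rw [aeval_X]
  have h2 : aeval (fun v => ψ (X v)) g = ψ g := DFunLike.congr_fun h g
  rw [h2, ← Ideal.Quotient.eq_zero_iff_mem]
  change algebraMap L Ω (algebraMap Q L (Ideal.Quotient.mk P g)) = 0 ↔ _
  rw [map_eq_zero_iff _ (algebraMap L Ω).injective, map_eq_zero_iff _ (IsFractionRing.injective Q L)]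

variable {K : Type} [Field K] {B : Type} [Fintype B]

theorem aeval_Ft (hHVB : G_HVB) (W : B → Affine K) (n : B → ℕ) (a : ∀ t, EE (n t) → Bool)
    (E : IX n → ℕ) (m : ∀ t, Fin (n t) → Fin (n t) → ℤ) (F : MvPolynomial (IX n) K)
    (Ω : Type) [Field Ω] [Algebra K Ω] (ζ : VX n → Ω) :
    aeval ζ (Ft W n a E m F) = hv (algebraMap K Ω) E F (fun i =>
      rp (algebraMap K Ω) (W i.1) (a i.1) (fun e => ζ ⟨i.1, e⟩) (lv (m i.1 i.2)) (m i.1 i.2)) := by
  obtain ⟨-, -, -, -, h5, -, -⟩ := hHVB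
  have h := h5 K (MvPolynomial (VX n) K) Ω C ((aeval ζ : MvPolynomial (VX n) K →ₐ[K] Ω) :
    MvPolynomial (VX n) K →+* Ω) (IX n) E F (fun i => rp C (W i.1) (a i.1) (fun e => X ⟨i.1, e⟩)
      (lv (m i.1 i.2)) (m i.1 i.2))
  have hc : ((aeval ζ : MvPolynomial (VX n) K →ₐ[K] Ω) : MvPolynomial (VX n) K →+* Ω).comp C =
      algebraMap K Ω := by
    ext r
    simp
  have h6 : aeval ζ (Ft W n a E m F) = hv (algebraMap K Ω) E F (fun i j =>
      aeval ζ (rp C (W i.1) (a i.1) (fun e => X ⟨i.1, e⟩) (lv (m i.1 i.2)) (m i.1 i.2) j)) := by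
    rw [← hc]
    exact h
  rw [h6]
  congr 1
  funext i j
  have h7 := map_rp (C : K →+* MvPolynomial (VX n) K)
    ((aeval ζ : MvPolynomial (VX n) K →ₐ[K] Ω) : MvPolynomial (VX n) K →+* Ω) (W i.1) (a i.1)
    (fun e => X ⟨i.1, e⟩) (lv (m i.1 i.2)) (m i.1 i.2) j
  rw [hc] at h7
  have h8 : (fun e => ((aeval ζ : MvPolynomial (VX n) K →ₐ[K] Ω) : MvPolynomial (VX n) K →+* Ω)
      (X ⟨i.1, e⟩ : MvPolynomial (VX n) K)) = fun e => ζ ⟨i.1, e⟩ := by
    funext e
    simp
  rw [h8] at h7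
  exact h7

/-- The value of `Ft` at the chart coordinates of a point. -/
theorem val_Ft (hHVB : G_HVB) (hVAL : G_VAL) (hDEGR : G_DEGR) (W : B → Affine K)
    [∀ t, (W t).IsElliptic] (n : B → ℕ) (a : ∀ t, EE (n t) → Bool)
    (E : IX n → ℕ) (m : ∀ t, Fin (n t) → Fin (n t) → ℤ) (F : MvPolynomial (IX n) K)
    (hE : ∀ i, degreeOf i F ≤ E i)
    (Ω : Type) [Field Ω] [DecidableEq Ω] [Algebra K Ω] (ζ : VX n → Ω) (W' : B → Affine Ω)
    (hW' : ∀ t, W' t = (W t).map (algebraMap K Ω)) (z : ∀ t, Fin (n t) → (W' t).Point)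
    (hT : ∀ t, TP (a t) (fun e => ζ ⟨t, e⟩) (z t)) :
    ∃ c : Ω, c ≠ 0 ∧ aeval ζ (Ft W n a E m F) =
      c * hv (algebraMap K Ω) E F (fun i => (vz (m i.1 i.2) (z i.1)).xRep) := by
  have key : ∀ i : IX n, ∃ σ : Ω, σ ≠ 0 ∧
      rp (algebraMap K Ω) (W i.1) (a i.1) (fun e => ζ ⟨i.1, e⟩) (lv (m i.1 i.2)) (m i.1 i.2) =
        σ • (vz (m i.1 i.2) (z i.1)).xRep := fun i =>
    hVAL K Ω (algebraMap K Ω) (W i.1) (W' i.1) (hW' i.1) (n i.1) (a i.1) (fun e => ζ ⟨i.1, e⟩)
      (z i.1) (hT i.1) (lv (m i.1 i.2)) (m i.1 i.2) (fun k => hDEGR.2.2 _ _ k)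
  choose ρ hρ0 hρ using key
  refine ⟨∏ i, ρ i ^ E i, Finset.prod_ne_zero_iff.2 fun i _ => pow_ne_zero _ (hρ0 i), ?_⟩
  rw [aeval_Ft hHVB]
  obtain ⟨-, -, h3, -, -, -, -⟩ := hHVB
  rw [← h3 K Ω (algebraMap K Ω) (IX n) E F ρ _ hE]
  congr 1
  funext i
  exact hρ i

theorem gZEL (hRELM : G_RELM) (hGTP : G_GTP) (hGIN : G_GIN) (hTRD : G_TRD) (hVAL : G_VAL)
    (hHVB : G_HVB) (hCHT : G_CHT) (hDEGR : G_DEGR) : G_ZEL := by
  intro K _ _ B _ W _ n m hm E F hF hE
  -- the hypersurface for one chart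
  have claim : ∀ a : ∀ t, EE (n t) → Bool, ∃ Z : MvPolynomial (IX n) K, Z ≠ 0 ∧
      rename (fun i : IX n => (⟨i.1, un i.2⟩ : VX n)) Z ∈
        OO W n a ⊔ Ideal.span {Ft W n a E m F} := by
    intro a
    by_contra hcon
    push Not at hcon
    obtain ⟨P, hP, hbP, hdis⟩ := Ideal.exists_le_prime_disjoint
      (OO W n a ⊔ Ideal.span {Ft W n a E m F})
      (Submonoid.map (rename (fun i : IX n => (⟨i.1, un i.2⟩ : VX n)) :
        MvPolynomial (IX n) K →ₐ[K] MvPolynomial (VX n) K)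
        (nonZeroDivisors (MvPolynomial (IX n) K)))
      (by
        rw [Set.disjoint_left]
        rintro g hg ⟨Z, hZ, rfl⟩
        exact hcon Z (nonZeroDivisors.ne_zero hZ) hg)
    obtain ⟨Ω, _, _, _, ζ, hζ⟩ := exists_generic K (VX n) P
    classical
    have hOO : ∀ g ∈ OO W n a, aeval ζ g = 0 := fun g hg =>
      (hζ g).2 (hbP (Ideal.mem_sup_left hg))
    have hFt : aeval ζ (Ft W n a E m F) = 0 :=
      (hζ _).2 (hbP (Ideal.mem_sup_right (Ideal.subset_span rfl)))
    have hind : AlgebraicIndependent K (fun i : IX n => ζ ⟨i.1, un i.2⟩) := by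
      rw [algebraicIndependent_iff]
      intro Z hZ
      by_contra hZ0
      have h1 : aeval ζ (rename (fun i : IX n => (⟨i.1, un i.2⟩ : VX n)) Z) = 0 := by
        rw [aeval_rename]
        exact hZ
      refine Set.disjoint_left.1 hdis ((hζ _).1 h1) ⟨Z, mem_nonZeroDivisors_of_ne_zero hZ0, rfl⟩
    have hR := hRELM K B W n a Ω ζ hOO
    have hpt : ∀ t, ∃ z : Fin (n t) → ((W t).map (algebraMap K Ω)).toAffine.Point,
        TP (a t) (fun e => ζ ⟨t, e⟩) z := by
      intro t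
      refine hGTP K Ω (W t) _ rfl (n t) (a t) _ (hR t) ?_
      exact hind.comp (fun i : Fin (n t) => (⟨t, i⟩ : IX n))
        (fun i j hij => eq_of_heq (Sigma.mk.inj hij).2)
    choose z hz using hpt
    -- the coordinates of the points
    have hne : ∀ i : IX n, ζ ⟨i.1, un i.2⟩ ≠ 0 := fun i => hind.ne_zero i
    have hco : ∀ i : IX n, z i.1 i.2 ≠ 0 ∧ (xc (z i.1 i.2) = ζ ⟨i.1, un i.2⟩ ∨
        xc (z i.1 i.2) = (ζ ⟨i.1, un i.2⟩)⁻¹) := by
      intro i
      obtain ⟨σ, hσ, h⟩ := hz i.1 (un i.2)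
      rw [(hCHT Ω _ (n i.1) (z i.1)).2.2 i.2] at h
      have h0 := congrFun h 0
      have h1 := congrFun h 1
      have hz0 : z i.1 i.2 ≠ 0 := by
        intro h2
        rw [h2, Affine.Point.xRep_zero] at h1
        unfold pr at h1
        split_ifs at h1
        · simp at h1
        · simp at h1
          exact hne i h1
      refine ⟨hz0, ?_⟩
      rw [xRep_of_ne_zero hz0] at h0 h1
      unfold pr at h0 h1
      split_ifs at h0 h1
      · left
        simp at h0 h1
        rw [h0, ← h1, one_mul]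
      · right
        simp at h0 h1
        rw [h1]
        field_simp
        rw [mul_comm]
        exact h0.symm
    have hz0 : ∀ t i, z t i ≠ 0 := fun t i => (hco ⟨t, i⟩).1
    have hindz : AlgebraicIndependent K (fun i : IX n => xc (z i.1 i.2)) := by
      refine hTRD K Ω (IX n) _ _ hind fun i => ?_
      have hmem : xc (z i.1 i.2) ∈ IntermediateField.adjoin K
          (Set.range fun i : IX n => xc (z i.1 i.2)) :=
        IntermediateField.subset_adjoin K _ ⟨i, rfl⟩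
      have hmem2 : ζ ⟨i.1, un i.2⟩ ∈ IntermediateField.adjoin K
          (Set.range fun i : IX n => xc (z i.1 i.2)) := by
        rcases (hco i).2 with h | h
        · rw [← h]
          exact hmem
        · have : ζ ⟨i.1, un i.2⟩ = (xc (z i.1 i.2))⁻¹ := by rw [h, inv_inv]
          rw [this]
          exact inv_mem hmem
      exact isAlgebraic_algebraMap (⟨_, hmem2⟩ : IntermediateField.adjoin K
          (Set.range fun i : IX n => xc (z i.1 i.2)))
    obtain ⟨hmz, hindu⟩ := hGIN K Ω B W (fun t => (W t).map (algebraMap K Ω)) (fun t => rfl) n z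
      hz0 hindz m hm
    obtain ⟨c, hc0, hc⟩ := val_Ft hHVB hVAL hDEGR W n a E m F hE Ω ζ
      (fun t => (W t).map (algebraMap K Ω)) (fun t => rfl) z hz
    rw [hFt] at hc
    have hx : (fun i : IX n => (vz (m i.1 i.2) (z i.1)).xRep) =
        fun i : IX n => ![xc (vz (m i.1 i.2) (z i.1)), 1] :=
      funext fun i => xRep_of_ne_zero (hmz i.1 i.2)
    rw [hx] at hc
    obtain ⟨-, -, -, h4, -, -, -⟩ := hHVB
    rw [h4 K Ω (algebraMap K Ω) (IX n) E F] at hc
    have hval : aeval (fun i : IX n => xc (vz (m i.1 i.2) (z i.1))) F = 0 := by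
      have := hc.symm
      rcases mul_eq_zero.1 this with h | h
      · exact absurd h hc0
      · exact h
    exact hF ((algebraicIndependent_iff.1 hindu) F hval)
  choose Zf hZ0 hZ using claim
  classical
  refine ⟨∏ a : ∀ t, EE (n t) → Bool, Zf a, Finset.prod_ne_zero_iff.2 fun a _ => hZ0 a, ?_⟩
  intro z hz hev hzero
  have hch := fun t => (hCHT K (W t) (n t) (z t)).2.1 (hz t)
  choose a ζ hT hun using hch
  -- evaluation at the chart coordinates
  have hW : ∀ t, W t = (W t).map (algebraMap K K) := fun t => by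
    rw [Algebra.algebraMap_self]
    exact (WeierstrassCurve.map_id (W t)).symm
  have hTP : ∀ t, TP (a t) (fun e => (fun v : VX n => ζ v.1 v.2) ⟨t, e⟩) (z t) := hT
  obtain ⟨c, hc0, hc⟩ := val_Ft hHVB hVAL hDEGR W n a E m F hE K (fun v : VX n => ζ v.1 v.2)
    W hW z hTP
  have hFt : aeval (fun v : VX n => ζ v.1 v.2) (Ft W n a E m F) = 0 := by
    rw [hc, Algebra.algebraMap_self, hzero, mul_zero]
  have hker : OO W n a ⊔ Ideal.span {Ft W n a E m F} ≤
      RingHom.ker ((aeval (fun v : VX n => ζ v.1 v.2) : MvPolynomial (VX n) K →ₐ[K] K) :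
        MvPolynomial (VX n) K →+* K) := by
    refine sup_le (fun g hg => ?_) ?_
    · exact hg K W hW z _ hTP
    · rw [Ideal.span_le, Set.singleton_subset_iff]
      exact hFt
  have h1 : aeval (fun v : VX n => ζ v.1 v.2)
      (rename (fun i : IX n => (⟨i.1, un i.2⟩ : VX n)) (Zf a)) = 0 := hker (hZ a)
  rw [aeval_rename] at h1
  have h2 : ((fun v : VX n => ζ v.1 v.2) ∘ fun i : IX n => (⟨i.1, un i.2⟩ : VX n)) =
      fun i => xc (z i.1 i.2) := funext fun i => (hun i.1 i.2).2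
  rw [h2] at h1
  refine hev ?_
  rw [map_prod]
  exact Finset.prod_eq_zero (Finset.mem_univ a) h1

end

end Pool.Agent.Helper87.UN
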