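import Pool.Agent.Helper79.UN.NGoals
import Pool.Agent.Helper79.UN.Lib

/-! # MP_57a173_lc: packet SY2 (syntax) -/

noncomputable section

namespace UN.PkSY2

open Pool.Agent.Helper97.Ku NU UL

/-- `Ap` with the fresh variables `m, m + 1, m + 2`. -/
theorem ap (a b c m : ℕ) (ha : a < m) (hb : b < m) (hc : c < m) :
    Dfn (fun _ E w => Ap E (w a) (w b) (w c)) (fun _ _ w => apV (w a) (w b) (w c)) :=
  Dfn.ap a b c m (m + 1) (m + 2) (by omega) (by omega) (by omega) (by omega) (by omega)
    (by omega) (by omega) (by omega) (by omega) (by omega)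

theorem sec (a b c d m : ℕ) (ha : a < m) (hb : b < m) (hc : c < m) (hd : d < m) :
    Dfn (fun _ E w => IsSec E (w a) (w b) (w c) (w d))
      (fun _ _ w => isSecV (w a) (w b) (w c) (w d)) := by
  have h1 : a ≠ m := ha.ne
  have h2 : b ≠ m := hb.ne
  have h3 : c ≠ m := hc.ne
  have h4 : d ≠ m := hd.ne
  exact Dfn.congr (Dfn.all m (Dfn.iff (Dfn.mem m d) (Dfn.and (Dfn.mem m a)
    (ap b c m (m + 1) (by omega) (by omega) (by omega)))))
    (fun N E w => by
      simp [IsSec, Function.update_of_ne h1, Function.update_of_ne h2, Function.update_of_ne h3,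
        Function.update_of_ne h4])
    (fun L _ w => by
      simp [isSecV, Function.update_of_ne h1, Function.update_of_ne h2, Function.update_of_ne h3,
        Function.update_of_ne h4])

theorem cpl (a b c m : ℕ) (ha : a < m) (hb : b < m) (hc : c < m) :
    Dfn (fun _ E w => IsCpl E (w a) (w b) (w c))
      (fun _ _ w => isCplV (w a) (w b) (w c)) := by
  have h1 : a ≠ m := ha.ne
  have h2 : b ≠ m := hb.ne
  have h3 : c ≠ m := hc.ne
  exact Dfn.congr (Dfn.all m (Dfn.iff (Dfn.mem m c) (Dfn.and (Dfn.mem m a)
    (Dfn.neg (Dfn.mem m b)))))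
    (fun N E w => by
      simp [IsCpl, Function.update_of_ne h1, Function.update_of_ne h2, Function.update_of_ne h3])
    (fun L _ w => by
      simp [isCplV, Function.update_of_ne h1, Function.update_of_ne h2, Function.update_of_ne h3])

theorem un (a b c d m : ℕ) (ha : a < m) (hb : b < m) (hc : c < m) (hd : d < m) :
    Dfn (fun _ E w => IsUn E (w a) (w b) (w c) (w d))
      (fun _ _ w => isUnV (w a) (w b) (w c) (w d)) := by
  have h1 : a ≠ m := ha.ne
  have h2 : b ≠ m := hb.ne
  have h3 : c ≠ m := hc.ne
  have h4 : d ≠ m := hd.ne
  have k1 : a ≠ m + 1 := by omega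
  have k2 : b ≠ m + 1 := by omega
  have k3 : c ≠ m + 1 := by omega
  have k4 : d ≠ m + 1 := by omega
  have k5 : m ≠ m + 1 := by omega
  exact Dfn.congr (Dfn.all m (Dfn.iff (Dfn.mem m d) (Dfn.and (Dfn.mem m b)
    (Dfn.ex (m + 1) (Dfn.and (Dfn.mem (m + 1) a)
      (ap c (m + 1) m (m + 2) (by omega) (by omega) (by omega)))))))
    (fun N E w => by
      simp [IsUn, Function.update_of_ne h1, Function.update_of_ne h2, Function.update_of_ne h3,
        Function.update_of_ne h4, Function.update_of_ne k1, Function.update_of_ne k2,
        Function.update_of_ne k3, Function.update_of_ne k4, Function.update_of_ne k5])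
    (fun L _ w => by
      simp [isUnV, Function.update_of_ne h1, Function.update_of_ne h2, Function.update_of_ne h3,
        Function.update_of_ne h4, Function.update_of_ne k1, Function.update_of_ne k2,
        Function.update_of_ne k3, Function.update_of_ne k4, Function.update_of_ne k5])

theorem sig0 (a b c d m : ℕ) (ha : a < m) (hb : b < m) (hc : c < m) (hd : d < m) :
    Dfn (fun _ E w => Sig0 E (w a) (w b) (w c) (w d))
      (fun _ _ w => sig0V (w a) (w b) (w c) (w d)) := by
  have f0 : ∀ x, x < m → x ≠ m := fun x h => by omega
  have f1 : ∀ x, x < m → x ≠ m + 1 := fun x h => by omega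
  have f2 : ∀ x, x < m → x ≠ m + 2 := fun x h => by omega
  have f3 : ∀ x, x < m → x ≠ m + 3 := fun x h => by omega
  have g1 : m ≠ m + 1 := by omega
  have g2 : m ≠ m + 2 := by omega
  have g3 : m ≠ m + 3 := by omega
  have g4 : m + 1 ≠ m + 2 := by omega
  have g5 : m + 1 ≠ m + 3 := by omega
  have g6 : m + 2 ≠ m + 3 := by omega
  exact Dfn.congr (Dfn.and (Dfn.sub d b m hd.ne hb.ne) (Dfn.ex m (Dfn.and (Dfn.mem m a)
    (Dfn.all (m + 1) (Dfn.all (m + 2) (Dfn.imp (Dfn.mem (m + 1) b) (Dfn.imp (Dfn.mem (m + 2) b)
      (Dfn.imp (Dfn.all (m + 3) (Dfn.imp (Dfn.mem (m + 3) m)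
        (Dfn.iff (ap c (m + 3) (m + 1) (m + 4) (by omega) (by omega) (by omega))
          (ap c (m + 3) (m + 2) (m + 4) (by omega) (by omega) (by omega)))))
        (Dfn.iff (Dfn.mem (m + 1) d) (Dfn.mem (m + 2) d))))))))))
    (fun N E w => by
      simp [Sig0, Function.update_of_ne (f0 a ha), Function.update_of_ne (f0 b hb),
        Function.update_of_ne (f0 c hc), Function.update_of_ne (f0 d hd),
        Function.update_of_ne (f1 a ha), Function.update_of_ne (f1 b hb),
        Function.update_of_ne (f1 c hc), Function.update_of_ne (f1 d hd),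
        Function.update_of_ne (f2 a ha), Function.update_of_ne (f2 b hb),
        Function.update_of_ne (f2 c hc), Function.update_of_ne (f2 d hd),
        Function.update_of_ne (f3 a ha), Function.update_of_ne (f3 b hb),
        Function.update_of_ne (f3 c hc), Function.update_of_ne (f3 d hd),
        Function.update_of_ne g1, Function.update_of_ne g2, Function.update_of_ne g3,
        Function.update_of_ne g4, Function.update_of_ne g5, Function.update_of_ne g6])
    (fun L _ w => by
      simp [sig0V, Function.update_of_ne (f0 a ha), Function.update_of_ne (f0 b hb),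
        Function.update_of_ne (f0 c hc), Function.update_of_ne (f0 d hd),
        Function.update_of_ne (f1 a ha), Function.update_of_ne (f1 b hb),
        Function.update_of_ne (f1 c hc), Function.update_of_ne (f1 d hd),
        Function.update_of_ne (f2 a ha), Function.update_of_ne (f2 b hb),
        Function.update_of_ne (f2 c hc), Function.update_of_ne (f2 d hd),
        Function.update_of_ne (f3 a ha), Function.update_of_ne (f3 b hb),
        Function.update_of_ne (f3 c hc), Function.update_of_ne (f3 d hd),
        Function.update_of_ne g1, Function.update_of_ne g2, Function.update_of_ne g3,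
        Function.update_of_ne g4, Function.update_of_ne g5, Function.update_of_ne g6])

theorem sig1 (a b c d m : ℕ) (ha : a < m) (hb : b < m) (hc : c < m) (hd : d < m) :
    Dfn (fun _ E w => Sig1 E (w a) (w b) (w c) (w d))
      (fun _ _ w => sig1V (w a) (w b) (w c) (w d)) := by
  have f0 : ∀ x, x < m → x ≠ m := fun x h => by omega
  have f1 : ∀ x, x < m → x ≠ m + 1 := fun x h => by omega
  have f2 : ∀ x, x < m → x ≠ m + 2 := fun x h => by omega
  have f3 : ∀ x, x < m → x ≠ m + 3 := fun x h => by omega
  have g1 : m ≠ m + 1 := by omega
  have g2 : m ≠ m + 2 := by omega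
  have g3 : m ≠ m + 3 := by omega
  have g4 : m + 1 ≠ m + 2 := by omega
  have g5 : m + 1 ≠ m + 3 := by omega
  have g6 : m + 2 ≠ m + 3 := by omega
  exact Dfn.congr (Dfn.ex m (Dfn.and (un a b m d (m + 1) (by omega) (by omega) (by omega)
    (by omega)) (Dfn.all (m + 1) (Dfn.imp (Dfn.mem (m + 1) a) (Dfn.ex (m + 2) (Dfn.ex (m + 3)
      (Dfn.and (sec b m (m + 1) (m + 2) (m + 4) (by omega) (by omega) (by omega) (by omega))
      (Dfn.and (cpl b (m + 2) (m + 3) (m + 4) (by omega) (by omega) (by omega))
        (sig0 a b c (m + 3) (m + 4) (by omega) (by omega) (by omega) (by omega))))))))))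
    (fun N E w => by
      simp [Sig1, Function.update_of_ne (f0 a ha), Function.update_of_ne (f0 b hb),
        Function.update_of_ne (f0 c hc), Function.update_of_ne (f0 d hd),
        Function.update_of_ne (f1 a ha), Function.update_of_ne (f1 b hb),
        Function.update_of_ne (f1 c hc), Function.update_of_ne (f1 d hd),
        Function.update_of_ne (f2 a ha), Function.update_of_ne (f2 b hb),
        Function.update_of_ne (f2 c hc), Function.update_of_ne (f2 d hd),
        Function.update_of_ne (f3 a ha), Function.update_of_ne (f3 b hb),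
        Function.update_of_ne (f3 c hc), Function.update_of_ne (f3 d hd),
        Function.update_of_ne g1, Function.update_of_ne g2, Function.update_of_ne g3,
        Function.update_of_ne g4, Function.update_of_ne g5, Function.update_of_ne g6])
    (fun L _ w => by
      simp [sig1V, Function.update_of_ne (f0 a ha), Function.update_of_ne (f0 b hb),
        Function.update_of_ne (f0 c hc), Function.update_of_ne (f0 d hd),
        Function.update_of_ne (f1 a ha), Function.update_of_ne (f1 b hb),
        Function.update_of_ne (f1 c hc), Function.update_of_ne (f1 d hd),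
        Function.update_of_ne (f2 a ha), Function.update_of_ne (f2 b hb),
        Function.update_of_ne (f2 c hc), Function.update_of_ne (f2 d hd),
        Function.update_of_ne (f3 a ha), Function.update_of_ne (f3 b hb),
        Function.update_of_ne (f3 c hc), Function.update_of_ne (f3 d hd),
        Function.update_of_ne g1, Function.update_of_ne g2, Function.update_of_ne g3,
        Function.update_of_ne g4, Function.update_of_ne g5, Function.update_of_ne g6])

theorem sig2 (a b c d m : ℕ) (ha : a < m) (hb : b < m) (hc : c < m) (hd : d < m) :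
    Dfn (fun _ E w => Sig2 E (w a) (w b) (w c) (w d))
      (fun _ _ w => sig2V (w a) (w b) (w c) (w d)) := by
  have f0 : ∀ x, x < m → x ≠ m := fun x h => by omega
  have f1 : ∀ x, x < m → x ≠ m + 1 := fun x h => by omega
  have f2 : ∀ x, x < m → x ≠ m + 2 := fun x h => by omega
  have f3 : ∀ x, x < m → x ≠ m + 3 := fun x h => by omega
  have g1 : m ≠ m + 1 := by omega
  have g2 : m ≠ m + 2 := by omega
  have g3 : m ≠ m + 3 := by omega
  have g4 : m + 1 ≠ m + 2 := by omega
  have g5 : m + 1 ≠ m + 3 := by omega
  have g6 : m + 2 ≠ m + 3 := by omega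
  exact Dfn.congr (Dfn.ex m (Dfn.and (un a b m d (m + 1) (by omega) (by omega) (by omega)
    (by omega)) (Dfn.all (m + 1) (Dfn.imp (Dfn.mem (m + 1) a) (Dfn.ex (m + 2) (Dfn.ex (m + 3)
      (Dfn.and (sec b m (m + 1) (m + 2) (m + 4) (by omega) (by omega) (by omega) (by omega))
      (Dfn.and (cpl b (m + 2) (m + 3) (m + 4) (by omega) (by omega) (by omega))
        (Dfn.or (sig0 a b c (m + 3) (m + 4) (by omega) (by omega) (by omega) (by omega))
          (sig1 a b c (m + 3) (m + 4) (by omega) (by omega) (by omega) (by omega)))))))))))
    (fun N E w => by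
      simp [Sig2, Function.update_of_ne (f0 a ha), Function.update_of_ne (f0 b hb),
        Function.update_of_ne (f0 c hc), Function.update_of_ne (f0 d hd),
        Function.update_of_ne (f1 a ha), Function.update_of_ne (f1 b hb),
        Function.update_of_ne (f1 c hc), Function.update_of_ne (f1 d hd),
        Function.update_of_ne (f2 a ha), Function.update_of_ne (f2 b hb),
        Function.update_of_ne (f2 c hc), Function.update_of_ne (f2 d hd),
        Function.update_of_ne (f3 a ha), Function.update_of_ne (f3 b hb),
        Function.update_of_ne (f3 c hc), Function.update_of_ne (f3 d hd),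
        Function.update_of_ne g1, Function.update_of_ne g2, Function.update_of_ne g3,
        Function.update_of_ne g4, Function.update_of_ne g5, Function.update_of_ne g6])
    (fun L _ w => by
      simp [sig2V, Function.update_of_ne (f0 a ha), Function.update_of_ne (f0 b hb),
        Function.update_of_ne (f0 c hc), Function.update_of_ne (f0 d hd),
        Function.update_of_ne (f1 a ha), Function.update_of_ne (f1 b hb),
        Function.update_of_ne (f1 c hc), Function.update_of_ne (f1 d hd),
        Function.update_of_ne (f2 a ha), Function.update_of_ne (f2 b hb),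
        Function.update_of_ne (f2 c hc), Function.update_of_ne (f2 d hd),
        Function.update_of_ne (f3 a ha), Function.update_of_ne (f3 b hb),
        Function.update_of_ne (f3 c hc), Function.update_of_ne (f3 d hd),
        Function.update_of_ne g1, Function.update_of_ne g2, Function.update_of_ne g3,
        Function.update_of_ne g4, Function.update_of_ne g5, Function.update_of_ne g6])

theorem sy2_pf : U_SY2 := fun i j k l =>
  sig2 i j k l (i + j + k + l + 1) (by omega) (by omega) (by omega) (by omega)

end UN.PkSY2
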