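import Pool.Agent.Helper87.UN.SY2

/-! # MP_57a173_lc: packet SY3 (syntax) -/

noncomputable section

namespace UN.PkSY3

open Pool.Agent.Helper97.Ku NU UL UN.PkSY2

theorem prm (a b c m : ℕ) (ha : a < m) (hb : b < m) (hc : c < m) :
    Dfn (fun _ E w => IsPr E (w a) (w b) (w c)) (fun _ _ w => prV (w a) (w b) (w c)) :=
  Dfn.pr a b c m (m + 1) (by omega) (by omega) (by omega) (by omega) (by omega) (by omega)

/-- `IsSig`, in the order `o K S`. -/
theorem sig (a b c m : ℕ) (ha : a < m) (hb : b < m) (hc : c < m) :
    Dfn (fun _ E w => IsSig E (w a) (w b) (w c))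
      (fun _ _ w => isSigV (w a) (w b) (w c)) := by
  have f0 : ∀ x, x < m → x ≠ m := fun x h => by omega
  have f1 : ∀ x, x < m → x ≠ m + 1 := fun x h => by omega
  have f2 : ∀ x, x < m → x ≠ m + 2 := fun x h => by omega
  have g1 : m ≠ m + 1 := by omega
  have g2 : m ≠ m + 2 := by omega
  have g4 : m + 1 ≠ m + 2 := by omega
  exact Dfn.congr (Dfn.and
    (Dfn.all m (Dfn.imp (Dfn.mem m c) (Dfn.sub m b (m + 1) g1 (f1 b hb))))
    (Dfn.and (Dfn.ex m (Dfn.mem m c))
    (Dfn.and (Dfn.all m (Dfn.imp (Dfn.mem m c) (Dfn.ex (m + 1) (Dfn.and (Dfn.mem (m + 1) c)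
      (cpl b m (m + 1) (m + 2) (by omega) (by omega) (by omega))))))
    (Dfn.all m (Dfn.imp (Dfn.all (m + 1) (Dfn.imp (Dfn.mem (m + 1) a) (Dfn.ex (m + 2)
      (Dfn.and (Dfn.mem (m + 2) c) (sec b m (m + 1) (m + 2) (m + 3) (by omega) (by omega)
        (by omega) (by omega))))))
      (Dfn.ex (m + 1) (Dfn.and (Dfn.mem (m + 1) c) (un a b m (m + 1) (m + 2) (by omega)
        (by omega) (by omega) (by omega)))))))))
    (fun N E w => by
      simp only [Function.update_of_ne (f0 a ha), Function.update_of_ne (f0 b hb),
        Function.update_of_ne (f0 c hc),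
        Function.update_of_ne (f1 a ha), Function.update_of_ne (f1 b hb),
        Function.update_of_ne (f1 c hc),
        Function.update_of_ne (f2 a ha), Function.update_of_ne (f2 b hb),
        Function.update_of_ne (f2 c hc),
        Function.update_of_ne g1, Function.update_of_ne g2,
        Function.update_of_ne g4, Function.update_self]
      exact ⟨fun h => ⟨h.1, h.2.1, h.2.2.1, h.2.2.2⟩, fun h => ⟨h.1, h.2, h.3, h.4⟩⟩)
    (fun L _ w => by
      simp only [isSigV, Function.update_of_ne (f0 a ha), Function.update_of_ne (f0 b hb),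
        Function.update_of_ne (f0 c hc),
        Function.update_of_ne (f1 a ha), Function.update_of_ne (f1 b hb),
        Function.update_of_ne (f1 c hc),
        Function.update_of_ne (f2 a ha), Function.update_of_ne (f2 b hb),
        Function.update_of_ne (f2 c hc),
        Function.update_of_ne g1, Function.update_of_ne g2,
        Function.update_of_ne g4, Function.update_self])

theorem sqr (a b m : ℕ) (ha : a < m) (hb : b < m) :
    Dfn (fun _ E w => IsSqr E (w a) (w b)) (fun _ _ w => isSqrV (w a) (w b)) := by
  have f0 : ∀ x, x < m → x ≠ m := fun x h => by omega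
  have f1 : ∀ x, x < m → x ≠ m + 1 := fun x h => by omega
  have f2 : ∀ x, x < m → x ≠ m + 2 := fun x h => by omega
  have g1 : m ≠ m + 1 := by omega
  have g2 : m ≠ m + 2 := by omega
  have g4 : m + 1 ≠ m + 2 := by omega
  exact Dfn.congr (Dfn.all m (Dfn.iff (Dfn.mem m b) (Dfn.ex (m + 1) (Dfn.ex (m + 2)
    (Dfn.and (Dfn.mem (m + 1) a) (Dfn.and (Dfn.mem (m + 2) a)
      (prm m (m + 1) (m + 2) (m + 3) (by omega) (by omega) (by omega))))))))
    (fun N E w => by
      simp only [IsSqr, Function.update_of_ne (f0 a ha), Function.update_of_ne (f0 b hb),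
        Function.update_of_ne (f1 a ha), Function.update_of_ne (f1 b hb),
        Function.update_of_ne (f2 a ha), Function.update_of_ne (f2 b hb),
        Function.update_of_ne g1, Function.update_of_ne g2,
        Function.update_of_ne g4, Function.update_self])
    (fun L _ w => by
      simp only [isSqrV, Function.update_of_ne (f0 a ha), Function.update_of_ne (f0 b hb),
        Function.update_of_ne (f1 a ha), Function.update_of_ne (f1 b hb),
        Function.update_of_ne (f2 a ha), Function.update_of_ne (f2 b hb),
        Function.update_of_ne g1, Function.update_of_ne g2,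
        Function.update_of_ne g4, Function.update_self])

theorem rec_ (a b c m : ℕ) (ha : a < m) (hb : b < m) (hc : c < m) :
    Dfn (fun _ E w => IsRec E (w a) (w b) (w c)) (fun _ _ w => isRecV (w a) (w b) (w c)) := by
  have f0 : ∀ x, x < m → x ≠ m := fun x h => by omega
  have f1 : ∀ x, x < m → x ≠ m + 1 := fun x h => by omega
  have f2 : ∀ x, x < m → x ≠ m + 2 := fun x h => by omega
  have g1 : m ≠ m + 1 := by omega
  have g2 : m ≠ m + 2 := by omega
  have g4 : m + 1 ≠ m + 2 := by omega
  exact Dfn.congr (Dfn.all m (Dfn.iff (Dfn.mem m c) (Dfn.ex (m + 1) (Dfn.ex (m + 2)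
    (Dfn.and (Dfn.mem (m + 1) a) (Dfn.and (Dfn.mem (m + 2) b)
      (prm m (m + 1) (m + 2) (m + 3) (by omega) (by omega) (by omega))))))))
    (fun N E w => by
      simp only [IsRec, Function.update_of_ne (f0 a ha), Function.update_of_ne (f0 b hb),
        Function.update_of_ne (f0 c hc), Function.update_of_ne (f1 c hc),
        Function.update_of_ne (f1 a ha), Function.update_of_ne (f1 b hb),
        Function.update_of_ne (f2 a ha), Function.update_of_ne (f2 b hb),
        Function.update_of_ne g1, Function.update_of_ne g2,
        Function.update_of_ne g4, Function.update_self])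
    (fun L _ w => by
      simp only [isRecV, Function.update_of_ne (f0 a ha), Function.update_of_ne (f0 b hb),
        Function.update_of_ne (f0 c hc), Function.update_of_ne (f1 c hc),
        Function.update_of_ne (f1 a ha), Function.update_of_ne (f1 b hb),
        Function.update_of_ne (f2 a ha), Function.update_of_ne (f2 b hb),
        Function.update_of_ne g1, Function.update_of_ne g2,
        Function.update_of_ne g4, Function.update_self])

theorem proj (a b c m : ℕ) (ha : a < m) (hb : b < m) (hc : c < m) :
    Dfn (fun _ E w => IsProj E (w a) (w b) (w c)) (fun _ _ w => isProjV (w a) (w b) (w c)) := by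
  have f0 : ∀ x, x < m → x ≠ m := fun x h => by omega
  have f1 : ∀ x, x < m → x ≠ m + 1 := fun x h => by omega
  have g1 : m ≠ m + 1 := by omega
  exact Dfn.congr (Dfn.all m (Dfn.iff (Dfn.mem m c) (Dfn.and (Dfn.mem m a) (Dfn.ex (m + 1)
    (ap b m (m + 1) (m + 2) (by omega) (by omega) (by omega))))))
    (fun N E w => by
      simp only [IsProj, Function.update_of_ne (f0 a ha), Function.update_of_ne (f0 b hb),
        Function.update_of_ne (f0 c hc), Function.update_of_ne (f1 c hc),
        Function.update_of_ne (f1 a ha), Function.update_of_ne (f1 b hb),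
        Function.update_of_ne g1, Function.update_self])
    (fun L _ w => by
      simp only [isProjV, Function.update_of_ne (f0 a ha), Function.update_of_ne (f0 b hb),
        Function.update_of_ne (f0 c hc), Function.update_of_ne (f1 c hc),
        Function.update_of_ne (f1 a ha), Function.update_of_ne (f1 b hb),
        Function.update_of_ne g1, Function.update_self])

/-- `IsBor2`, in the order `o K A D W`. -/
theorem bor2 (sy1 : U_SY1) (a b c d e m : ℕ) (ha : a < m) (hb : b < m) (hc : c < m) (hd : d < m)
    (he : e < m) :
    Dfn (fun _ E w => IsBor2 E (w a) (w b) (w c) (w d) (w e))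
      (fun _ _ w => isBor2V (w a) (w b) (w c) (w d) (w e)) := by
  have f0 : ∀ x, x < m → x ≠ m := fun x h => by omega
  have f1 : ∀ x, x < m → x ≠ m + 1 := fun x h => by omega
  have f2 : ∀ x, x < m → x ≠ m + 2 := fun x h => by omega
  have f3 : ∀ x, x < m → x ≠ m + 3 := fun x h => by omega
  have g1 : m ≠ m + 1 := by omega
  have g2 : m ≠ m + 2 := by omega
  have g3 : m ≠ m + 3 := by omega
  have g4 : m + 1 ≠ m + 2 := by omega
  have g5 : m + 1 ≠ m + 3 := by omega
  have g6 : m + 2 ≠ m + 3 := by omega
  exact Dfn.congr (Dfn.all m (Dfn.imp (sig a d m (m + 1) (by omega) (by omega) (by omega))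
    (Dfn.imp (Dfn.all (m + 1) (Dfn.all (m + 2) (Dfn.all (m + 3)
      (Dfn.imp (sy1 a b c (m + 1)) (Dfn.imp (sy1 a b c (m + 2))
        (Dfn.imp (rec_ (m + 1) (m + 2) (m + 3) (m + 4) (by omega) (by omega) (by omega))
          (Dfn.mem (m + 3) m)))))))
      (Dfn.mem e m))))
    (fun N E w => by
      simp only [IsBor2, Function.update_of_ne (f0 a ha), Function.update_of_ne (f0 b hb),
        Function.update_of_ne (f0 c hc), Function.update_of_ne (f0 d hd),
        Function.update_of_ne (f0 e he),
        Function.update_of_ne (f1 a ha), Function.update_of_ne (f1 b hb),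
        Function.update_of_ne (f1 c hc), Function.update_of_ne (f1 d hd),
        Function.update_of_ne (f2 a ha), Function.update_of_ne (f2 b hb),
        Function.update_of_ne (f2 c hc), Function.update_of_ne (f2 d hd),
        Function.update_of_ne (f3 a ha), Function.update_of_ne (f3 b hb),
        Function.update_of_ne (f3 c hc), Function.update_of_ne (f3 d hd),
        Function.update_of_ne g1, Function.update_of_ne g2, Function.update_of_ne g3,
        Function.update_of_ne g4, Function.update_of_ne g5, Function.update_of_ne g6,
        Function.update_self])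
    (fun L _ w => by
      simp only [isBor2V, Function.update_of_ne (f0 a ha), Function.update_of_ne (f0 b hb),
        Function.update_of_ne (f0 c hc), Function.update_of_ne (f0 d hd),
        Function.update_of_ne (f0 e he),
        Function.update_of_ne (f1 a ha), Function.update_of_ne (f1 b hb),
        Function.update_of_ne (f1 c hc), Function.update_of_ne (f1 d hd),
        Function.update_of_ne (f2 a ha), Function.update_of_ne (f2 b hb),
        Function.update_of_ne (f2 c hc), Function.update_of_ne (f2 d hd),
        Function.update_of_ne (f3 a ha), Function.update_of_ne (f3 b hb),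
        Function.update_of_ne (f3 c hc), Function.update_of_ne (f3 d hd),
        Function.update_of_ne g1, Function.update_of_ne g2, Function.update_of_ne g3,
        Function.update_of_ne g4, Function.update_of_ne g5, Function.update_of_ne g6,
        Function.update_self])

theorem sy3_pf (sy1 : U_SY1) : U_SY3 := fun i j k l m =>
  ⟨bor2 sy1 i j k l m (i + j + k + l + m + 1) (by omega) (by omega) (by omega) (by omega)
    (by omega), sqr i j (i + j + 1) (by omega) (by omega),
    proj i j k (i + j + k + 1) (by omega) (by omega) (by omega)⟩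

end UN.PkSY3
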